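import Mathlib

namespace Pool.Agent.Results.MP_3f5b22_an.Counter
open Polynomial Filter Topology

/-- A multigraph given by its darts (oriented edges), their sources and the reversal. -/
structure MG (V D : Type) where
  src : D → V
  rev : D → D
  rev_rev : ∀ d, rev (rev d) = d
  rev_ne : ∀ d, rev d ≠ d

variable {V D : Type} [Fintype D] [DecidableEq V] [DecidableEq D] (Γ : MG V D)

/-- The end vertex of a walk from `x` (last dart first). -/
def MG.endp (x : V) : List D → V
  | [] => x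
  | d :: _ => Γ.src (Γ.rev d)

/-- Non-backtracking walks from `x`: the vertices of the universal cover. -/
def MG.Walk (x : V) : List D → Prop
  | [] => True
  | d :: l => MG.Walk x l ∧ Γ.src d = Γ.endp x l ∧ l.head? ≠ some (Γ.rev d)

/-- The neighbour of a vertex of the universal cover along the lift of the dart `d`. -/
def MG.step (l : List D) (d : D) : List D :=
  if l.head? = some (Γ.rev d) then l.tail else d :: l

/-- The periodic Jacobi matrix on the universal cover. -/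
noncomputable def MG.jac (a : D → ℝ) (b : V → ℝ) (x : V) (u : List D → ℂ) (l : List D) : ℂ :=
  b (Γ.endp x l) * u l + ∑ d with Γ.src d = Γ.endp x l, a d * u (Γ.step l d)

/-- `u` is a square summable solution of `(H - z) u = δ` on the universal cover. -/
def MG.Res (a : D → ℝ) (b : V → ℝ) (x : V) (z : ℂ) (u : List D → ℂ) : Prop :=
  Summable (fun l : {l // Γ.Walk x l} => ‖u l‖ ^ 2) ∧
    ∀ l, Γ.Walk x l → Γ.jac a b x u l - z * u l = if l = [] then 1 else 0

/-- `g` is the value at `z` of the Green's function at the vertex `x`. -/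
def MG.IsGreen (a : D → ℝ) (b : V → ℝ) (x : V) (z g : ℂ) : Prop :=
  (∃ u, Γ.Res a b x z u) ∧ ∀ u, Γ.Res a b x z u → u [] = g

/-- The graph with two vertices joined by three edges. -/
def th : MG Bool (Fin 3 × Bool) where
  src d := d.2
  rev d := (d.1, !d.2)
  rev_rev d := by simp
  rev_ne d := by rcases d with ⟨i, _ | _⟩ <;> simp

noncomputable def wt (d : Fin 3 × Bool) : ℝ := if d.1 = 0 then √2 else 1

noncomputable def PP : ℂ[X][X] :=
  C (X ^ 4 - 12 * X ^ 2 + 4) * X ^ 3 + C (2 * X * (6 - X ^ 2)) * X ^ 2 + C (-X ^ 2) * X + C (2 * X)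

lemma PP_eval (z g : ℂ) : PP.evalEval z g =
    (z ^ 4 - 12 * z ^ 2 + 4) * g ^ 3 + 2 * z * (6 - z ^ 2) * g ^ 2 - z ^ 2 * g + 2 * z := by
  simp [PP, evalEval]; ring

lemma lead_ne : (X ^ 4 - 12 * X ^ 2 + 4 : ℂ[X]) ≠ 0 := fun h => by
  have := congrArg (eval 0) h
  simp at this

lemma PP_irr : Irreducible (PP.map (algebraMap ℂ[X] (RatFunc ℂ))) := by
  have hdeg : PP.degree = 3 := degree_cubic lead_ne
  have hl : PP.leadingCoeff = X ^ 4 - 12 * X ^ 2 + 4 := leadingCoeff_cubic lead_ne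
  have c0 : PP.coeff 0 = 2 * X := by simp [PP, coeff_X_pow, coeff_C_mul, -map_mul, -map_add, -map_sub, -map_neg, -map_pow]
  have c1 : PP.coeff 1 = -X ^ 2 := by simp [PP, coeff_X_pow, coeff_C_mul, coeff_C, -map_mul, -map_add, -map_sub, -map_neg, -map_pow]
  have c2 : PP.coeff 2 = 2 * X * (6 - X ^ 2) := by
    simp [PP, coeff_X_pow, coeff_C_mul, coeff_C, coeff_X, -map_mul, -map_add, -map_sub, -map_neg, -map_pow]
  have c3 : PP.coeff 3 = X ^ 4 - 12 * X ^ 2 + 4 := by
    simp [PP, coeff_X_pow, coeff_C_mul, coeff_C, coeff_X, -map_mul, -map_add, -map_sub, -map_neg, -map_pow]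
  have hprim : PP.IsPrimitive := by
    intro r hr
    rw [C_dvd_iff_dvd_coeff] at hr
    have h0 := hr 0
    have h3 := hr 3
    rw [c0] at h0; rw [c3] at h3
    have h8 : r ∣ C 8 := by
      have := dvd_sub (h3.mul_left 2) (h0.mul_left (X ^ 3 - 12 * X))
      have e : 2 * (X ^ 4 - 12 * X ^ 2 + 4 : ℂ[X]) - (X ^ 3 - 12 * X) * (2 * X) = C 8 := by
        rw [show (C 8 : ℂ[X]) = 8 from rfl]; ring
      rwa [e] at this
    exact isUnit_of_dvd_unit h8 (isUnit_C.2 (by norm_num))
  rw [← hprim.irreducible_iff_irreducible_map_fraction_map]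
  refine irreducible_of_eisenstein_criterion (P := Ideal.span {X})
    ((Ideal.span_singleton_prime X_ne_zero).2 prime_X) ?_ ?_ (by rw [hdeg]; norm_num) ?_ hprim
  · rw [hl, Ideal.mem_span_singleton, X_dvd_iff]; simp
  · intro n hn
    rw [hdeg] at hn
    have hn' : n < 3 := by exact_mod_cast hn
    rw [Ideal.mem_span_singleton]
    interval_cases n
    · rw [c0]; exact Dvd.intro_left _ rfl
    · rw [c1]; exact ⟨-X, by ring⟩
    · rw [c2]; exact ⟨2 * (6 - X ^ 2), by ring⟩
  · rw [c0, Ideal.span_singleton_pow, Ideal.mem_span_singleton, X_pow_dvd_iff]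
    intro h
    have := h 1 (by norm_num)
    simp at this

lemma branch : ∃ ψ : ℂ → ℂ, AnalyticAt ℂ ψ 0 ∧ (∀ᶠ g in 𝓝 0, PP.evalEval (ψ g) g = 0) ∧
    analyticOrderAt ψ 0 = 3 := by
  have hs : ∀ c : ℂ, AnalyticAt ℂ (fun g : ℂ => (1 + c * g ^ 2) ^ (2⁻¹ : ℂ)) 0 := fun c =>
    AnalyticAt.cpow (by fun_prop) analyticAt_const (by simp)
  set A := fun g : ℂ => (1 + 8 * g ^ 2) ^ (2⁻¹ : ℂ) with hA
  set B := fun g : ℂ => (1 + 4 * g ^ 2) ^ (2⁻¹ : ℂ) with hB
  have hAa : AnalyticAt ℂ A 0 := hs 8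
  have hBa : AnalyticAt ℂ B 0 := hs 4
  have A2 : ∀ g, A g ^ 2 = 1 + 8 * g ^ 2 := fun g => Complex.cpow_ofNat_inv_pow _ 2
  have B2 : ∀ g, B g ^ 2 = 1 + 4 * g ^ 2 := fun g => Complex.cpow_ofNat_inv_pow _ 2
  have A0 : A 0 = 1 := by simp [hA]
  have B0 : B 0 = 1 := by simp [hB]
  set E := fun g : ℂ => (1 + A g + 2 * B g) * (1 + A g + 4 * g ^ 2) with hE
  have hEa : AnalyticAt ℂ E 0 := by rw [hE]; fun_prop
  have E0 : E 0 ≠ 0 := by simp only [hE, A0, B0]; norm_num
  have hh : AnalyticAt ℂ (fun g => -16 / E g) 0 := analyticAt_const.div hEa E0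
  have hψ : AnalyticAt ℂ (fun g => g ^ 3 * (-16 / E g)) 0 := by fun_prop
  refine ⟨fun g => g ^ 3 * (-16 / E g), hψ, ?_, ?_⟩
  · filter_upwards [hEa.continuousAt.eventually_ne E0] with g hg
    rw [PP_eval]
    by_cases h0 : g = 0
    · simp [h0]
    set z := g ^ 3 * (-16 / E g) with hz
    have h1 : z * g = (1 + A g - 2 * B g) / 2 := by
      have h2 : (1 + A g - 2 * B g) * E g = -32 * g ^ 4 := by
        simp only [hE]
        linear_combination (1 + A g + 4 * g ^ 2 + 2) * A2 g - 4 * (1 + A g + 4 * g ^ 2) * B2 g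
      rw [hz]; field_simp; linear_combination -h2
    have h3 : 1 + z * g - (z * g) ^ 2 + 6 * g ^ 2 = A g * B g := by
      rw [h1]; linear_combination (-1 / 4) * A2 g - B2 g
    apply mul_left_cancel₀ h0
    have h4 : (A g * B g) ^ 2 = (1 + 8 * g ^ 2) * (1 + 4 * g ^ 2) := by rw [mul_pow, A2, B2]
    rw [← h3] at h4
    linear_combination h4
  · rw [show (3 : ℕ∞) = (3 : ℕ) from rfl, hψ.analyticOrderAt_eq_natCast]
    refine ⟨_, hh, by simpa using E0, Eventually.of_forall fun g => by simp⟩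

lemma cubic (z : ℂ) (hz : 10 < ‖z‖) : ∃ y : ℂ, 3 ≤ ‖y‖ ∧ z * y ^ 3 + z ^ 2 * y ^ 2 + 3 * z * y + 2 = 0 := by
  have hz0 : z ≠ 0 := by rintro rfl; norm_num at hz
  obtain ⟨y, hy⟩ := Complex.exists_root (f := C z * X ^ 3 + C (z ^ 2) * X ^ 2 + C (3 * z) * X + C 2)
    (by rw [degree_cubic hz0]; norm_num)
  have hy : z * y ^ 3 + z ^ 2 * y ^ 2 + 3 * z * y + 2 = 0 := by simpa using hy
  obtain ⟨s, hs⟩ := IsAlgClosed.exists_pow_nat_eq ((z + y) ^ 2 - 4 * (3 + y * (z + y))) two_pos
  have key : ∀ t : ℂ, t ^ 2 + (z + y) * t + (3 + y * (z + y)) = 0 →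
      z * t ^ 3 + z ^ 2 * t ^ 2 + 3 * z * t + 2 = 0 := fun t ht => by
    linear_combination z * (t - y) * ht + hy
  by_contra hc
  push Not at hc
  have h1 : ‖y‖ < 3 := lt_of_not_ge fun h => hc y h hy
  have h2 : ‖(-(z + y) + s) / 2‖ < 3 :=
    lt_of_not_ge fun h => hc _ h (key _ (by linear_combination hs / 4))
  have h3 : ‖(-(z + y) - s) / 2‖ < 3 :=
    lt_of_not_ge fun h => hc _ h (key _ (by linear_combination hs / 4))
  have h4 : z = -(y + (-(z + y) + s) / 2 + (-(z + y) - s) / 2) := by ring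
  have h5 := norm_add₃_le (a := y) (b := (-(z + y) + s) / 2) (c := (-(z + y) - s) / 2)
  rw [← norm_neg, ← h4] at h5
  linarith

lemma sum_lists {α : Type} [Fintype α] (c : α → ℝ) (hc : ∀ i, 0 ≤ c i) (h1 : ∑ i, c i < 1) :
    Summable fun l : List α => (l.map c).prod := by
  rw [← List.equivSigmaTuple.symm.summable_iff]
  have e : ((fun l : List α => (l.map c).prod) ∘ List.equivSigmaTuple.symm) =
      fun p : Σ n, Fin n → α => ∏ i, c (p.2 i) := by
    funext p
    simp [List.equivSigmaTuple, List.map_ofFn, List.prod_ofFn]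
  rw [e, summable_sigma_of_nonneg fun p => Finset.prod_nonneg fun i _ => hc _]
  refine ⟨fun n => (hasSum_fintype _).summable, ?_⟩
  simp only [tsum_fintype, ← Fintype.sum_pow]
  exact summable_geometric_of_lt_one (Finset.sum_nonneg fun i _ => hc i) h1

lemma walk_step (x : V) (l : List D) (d : D) (hl : Γ.Walk x l) (hd : Γ.src d = Γ.endp x l) :
    Γ.Walk x (Γ.step l d) := by
  unfold MG.step
  split_ifs with h
  · cases l with
    | nil => trivial
    | cons e l => exact hl.1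
  · exact ⟨hl, hd, h⟩

lemma wt_le (d : Fin 3 × Bool) : 0 < wt d ∧ wt d ≤ 3 / 2 := by
  unfold wt
  split_ifs
  · exact ⟨by positivity, Real.sqrt_le_iff.2 ⟨by norm_num, by norm_num⟩⟩
  · norm_num

lemma uniq (z : ℂ) (hz : 10 < ‖z‖) (u v : List (Fin 3 × Bool) → ℂ)
    (hu : th.Res wt 0 false z u) (hv : th.Res wt 0 false z v) : u [] = v [] := by
  have bd : ∀ w : List (Fin 3 × Bool) → ℂ, th.Res wt 0 false z w →
      ∃ M, ∀ l, th.Walk false l → ‖w l‖ ≤ M := fun w hw =>
    ⟨√(∑' l : {l // th.Walk false l}, ‖w l‖ ^ 2), fun l hl => Real.le_sqrt_of_sq_le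
      (hw.1.le_tsum ⟨l, hl⟩ fun _ _ => by positivity)⟩
  obtain ⟨M, hM⟩ := bd u hu
  obtain ⟨N, hN⟩ := bd v hv
  have main : ∀ n : ℕ, ∀ l, th.Walk false l → ‖u l - v l‖ ≤ (M + N) * (9 / 10) ^ n := by
    intro n
    induction n with
    | zero => intro l hl; simpa using (norm_sub_le _ _).trans (add_le_add (hM l hl) (hN l hl))
    | succ n ih =>
      intro l hl
      have h0 : 0 ≤ (M + N) * (9 / 10 : ℝ) ^ n := (norm_nonneg _).trans (ih l hl)
      have e : z * (u l - v l) = ∑ d with th.src d = th.endp false l,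
          (wt d : ℂ) * (u (th.step l d) - v (th.step l d)) := by
        have h1 := hu.2 l hl
        have h2 := hv.2 l hl
        simp only [MG.jac, Pi.zero_apply, Complex.ofReal_zero, zero_mul, zero_add] at h1 h2
        simp only [mul_sub, Finset.sum_sub_distrib]
        linear_combination h2 - h1
      have h3 : ‖z‖ * ‖u l - v l‖ ≤ 6 * (3 / 2 * ((M + N) * (9 / 10) ^ n)) := by
        rw [← norm_mul, e]
        refine (norm_sum_le _ _).trans ((Finset.sum_le_card_nsmul _ _
          (3 / 2 * ((M + N) * (9 / 10) ^ n)) fun d hd => ?_).trans ?_)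
        · rw [norm_mul, Complex.norm_real, Real.norm_of_nonneg (wt_le d).1.le]
          exact mul_le_mul (wt_le d).2 (ih _ (walk_step th _ _ _ hl (Finset.mem_filter.1 hd).2))
            (norm_nonneg _) (by norm_num)
        · rw [nsmul_eq_mul]
          refine mul_le_mul_of_nonneg_right ?_ (by positivity)
          have := Finset.card_le_univ (Finset.univ.filter fun d => th.src d = th.endp false l)
          simp only [Fintype.card_prod, Fintype.card_fin, Fintype.card_bool] at this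
          exact_mod_cast this
      rw [pow_succ]
      nlinarith [norm_nonneg (u l - v l)]
  have := ge_of_tendsto' ((tendsto_pow_atTop_nhds_zero_of_lt_one (r := (9 / 10 : ℝ))
    (by norm_num) (by norm_num)).const_mul (M + N)) fun n => main n [] trivial
  simpa [sub_eq_zero] using this

lemma exist (z : ℂ) (hz : 10 < ‖z‖) : ∃ u, th.Res wt 0 false z u ∧ PP.evalEval z (u []) = 0 := by
  obtain ⟨y, hy3, hy⟩ := cubic z hz
  have hy0 : y ≠ 0 := by rintro rfl; norm_num at hy3
  set x := y⁻¹ with hx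
  have hxn : ‖x‖ ≤ 1 / 3 := by rw [hx, norm_inv, one_div]; exact inv_anti₀ (by norm_num) hy3
  have hx3 : 2 * x ^ 3 + 3 * z * x ^ 2 + z ^ 2 * x + z = 0 := by
    rw [hx]; field_simp; linear_combination hy
  have n1 : 9 ≤ ‖-z - 2 * x‖ := by
    have := norm_sub_norm_le (-z) (2 * x)
    rw [norm_neg, norm_mul] at this
    simp only [Complex.norm_ofNat] at this
    linarith
  have d1 : -z - 2 * x ≠ 0 := fun h => by rw [h] at n1; norm_num at n1
  set m := (-z - 2 * x)⁻¹ with hm
  have hmn : ‖m‖ ≤ 1 / 9 := by rw [hm, norm_inv, one_div]; exact inv_anti₀ (by norm_num) n1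
  have e1 : m * (-z - 2 * x) = 1 := inv_mul_cancel₀ d1
  have e2 : x * (-z - 2 * m - x) = 1 := by
    apply mul_left_cancel₀ d1
    linear_combination hx3 - 2 * x * e1
  have n2 : 9 ≤ ‖-z - (2 * m + 2 * x)‖ := by
    have := norm_sub_norm_le (-z) (2 * m + 2 * x)
    have h2 := norm_add_le (2 * m) (2 * x)
    rw [norm_neg] at this
    simp only [norm_mul, Complex.norm_ofNat] at h2
    linarith
  have d2 : -z - (2 * m + 2 * x) ≠ 0 := fun h => by rw [h] at n2; norm_num at n2
  set G := (-z - (2 * m + 2 * x))⁻¹ with hG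
  have e3 : G * (-z - (2 * m + 2 * x)) = 1 := inv_mul_cancel₀ d2
  have s2 : ((√2 : ℝ) : ℂ) ^ 2 = 2 := by
    rw [← Complex.ofReal_pow, Real.sq_sqrt (by norm_num)]; norm_num
  set c : Fin 3 × Bool → ℂ := fun d => -(wt d * if d.1 = 0 then m else x) with hc
  refine ⟨fun l => G * (l.map c).prod, ⟨?_, fun l hl => ?_⟩, ?_⟩
  · have hs := sum_lists (fun d => ‖c d‖ ^ 2) (fun d => by positivity) (by
      have h2 : (√2 : ℝ) ^ 2 = 2 := Real.sq_sqrt (by norm_num)
      simp only [Fintype.sum_prod_type, Fin.sum_univ_three, Fintype.sum_bool, hc, wt]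
      simp [mul_pow, h2]
      nlinarith [norm_nonneg m, norm_nonneg x])
    refine ((hs.mul_left (‖G‖ ^ 2)).subtype _).congr fun l => ?_
    have : ∀ l : List (Fin 3 × Bool), ‖(l.map c).prod‖ ^ 2 = (l.map fun d => ‖c d‖ ^ 2).prod := by
      intro l
      induction l with
      | nil => simp
      | cons d l ih => simp [mul_pow, ih]
    simp [mul_pow, this]
  · simp only [MG.jac, Finset.sum_filter, Fintype.sum_prod_type, Fin.sum_univ_three,
      Fintype.sum_bool, MG.step]
    cases l with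
    | nil =>
      simp [th, MG.endp, hc, wt]
      linear_combination e3 - G * m * s2
    | cons d l =>
      rcases d with ⟨i, s⟩
      have c0 : ∀ s, c (0, s) = -((√2 : ℝ) * m) := fun s => by simp [hc, wt]
      have c1 : ∀ s, c (1, s) = -x := fun s => by simp [hc, wt]
      have c2 : ∀ s, c (2, s) = -x := fun s => by simp [hc, wt]
      clear_value c G m x
      fin_cases i <;> cases s <;> simp [th, MG.endp, c0, c1, c2, wt]
      all_goals first
        | linear_combination (-(√2 : ℝ) * G * (l.map c).prod) * e1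
        | linear_combination (-G * (l.map c).prod) * e2 + G * (l.map c).prod * m * x * s2
  · simp only [List.map_nil, List.prod_nil, mul_one, PP_eval]
    set w := -z - (2 * m + 2 * x) with hw
    have y1 : (w + 4 * m) ^ 2 = w ^ 2 + 8 := by rw [hw]; linear_combination 8 * e1
    have y2 : (w + 2 * x) ^ 2 = w ^ 2 + 4 := by rw [hw]; linear_combination 4 * e2
    have y3 : w ^ 2 + z * w - z ^ 2 + 6 = -((w + 4 * m) * (w + 2 * x)) := by
      have : z = -w - 2 * m - 2 * x := by rw [hw]; ring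
      rw [this]; linear_combination (-1 / 4) * y1 - y2
    have y4 : (w ^ 2 + z * w - z ^ 2 + 6) ^ 2 = (w ^ 2 + 8) * (w ^ 2 + 4) := by
      rw [y3, neg_sq, mul_pow, y1, y2]
    rw [hG]; field_simp; linear_combination y4

theorem result : ∃ (V D : Type) (_ : Fintype V) (_ : Fintype D) (_ : DecidableEq V)
    (_ : DecidableEq D) (Γ : MG V D) (a : D → ℝ) (b : V → ℝ) (x : V) (G : ℂ → ℂ) (P : ℂ[X][X])
    (R : ℝ),
    (∀ y y', ∃ l, Γ.Walk y l ∧ Γ.endp y l = y') ∧
    (∃ y l, l ≠ [] ∧ Γ.Walk y l ∧ Γ.endp y l = y) ∧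
    (∀ d, 0 < a d ∧ a (Γ.rev d) = a d) ∧
    (∀ z, R < ‖z‖ → Γ.IsGreen a b x z (G z)) ∧
    Irreducible (P.map (algebraMap ℂ[X] (RatFunc ℂ))) ∧
    (∀ z, R < ‖z‖ → P.evalEval z (G z) = 0) ∧
    ∃ ψ : ℂ → ℂ, AnalyticAt ℂ ψ 0 ∧ (∀ᶠ g in 𝓝 0, P.evalEval (ψ g) g = 0) ∧
      analyticOrderAt ψ 0 = 3 := by
  choose! u hu using exist
  refine ⟨Bool, Fin 3 × Bool, inferInstance, inferInstance, inferInstance, inferInstance, th, wt,
    0, false, fun z => u z [], PP, 10, fun y y' => ?_,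
    ⟨false, [(1, true), (0, false)], by simp, by simp [MG.Walk, MG.endp, th], rfl⟩,
    fun d => ⟨(wt_le d).1, rfl⟩,
    fun z hz => ⟨⟨_, (hu z hz).1⟩, fun v hv => uniq z hz _ _ hv (hu z hz).1⟩, PP_irr,
    fun z hz => (hu z hz).2, branch⟩
  by_cases h : y = y'
  · exact ⟨[], trivial, h⟩
  · refine ⟨[(0, y)], by simp [MG.Walk, MG.endp, th], ?_⟩
    cases y <;> cases y' <;> simp_all [MG.endp, th]

end Pool.Agent.Results.MP_3f5b22_an.Counter
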